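import Pool.Agent.Helper50.BL.Stmts
import Pool.Agent.Helper50.BL.Base

/-! A good rounding exists (local lemma). -/

set_option autoImplicit false

namespace Pool.Agent.Helper50.BL

open Finset
open scoped Classical

noncomputable section

theorem xi_W {V : Type} (y : V → ℝ) (hy : ∀ x, |y x| ≤ 1 / 4) : IsW (mw y) := by
  constructor
  · intro v a
    have h := abs_le.1 (hy v)
    unfold mw
    split_ifs
    · norm_num
    · linarith [h.1]
    · linarith [h.2]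
  · intro v
    have h0 : (univ : Finset SignType) = {0, -1, 1} := SignType.univ_eq
    have e1 : mw y v 0 = 1 / 2 := by
      unfold mw
      rw [if_pos rfl]
    have e2 : mw y v (-1) = 1 / 4 - y v / 2 := by
      unfold mw
      rw [if_neg (by decide), if_neg (by decide)]
    have e3 : mw y v 1 = 1 / 4 + y v / 2 := by
      unfold mw
      rw [if_neg (by decide), if_pos rfl]
    rw [h0, Finset.sum_insert (by decide), Finset.sum_insert (by decide), Finset.sum_singleton,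
      e1, e2, e3]
    ring

theorem xi_dep {V α : Type} {X : Finset V} {A : (V → α) → Prop} (P : Prop) (h : Dep X A) :
    Dep X (fun w => P ∧ A w) := fun w w' hw => and_congr_right fun _ => h w w' hw

theorem xi_shr (hSHR : ST_SHR) {V : Type} [Fintype V] [DecidableEq V] (y : V → ℝ) (η γ : ℝ)
    (X : Finset V) (P : Prop) [Decidable P] (hy : ∀ x, |y x| ≤ 1 / 4) (hη : 0 < η)
    (hγη : γ ≤ η ^ 2) :
    Dep X (fun ξ => P ∧ η * (#X : ℝ) < |(#(stay ξ X) : ℝ) - (#X : ℝ) / 2|) ∧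
    Pr (mw y) (fun ξ => P ∧ η * (#X : ℝ) < |(#(stay ξ X) : ℝ) - (#X : ℝ) / 2|)
      ≤ (if P ∧ X.Nonempty then 2 * Real.exp (-(η ^ 2 * (#X : ℝ))) else 0)
        * Real.exp (-(γ * (#X : ℝ))) := by
  obtain ⟨h1, h2⟩ := hSHR V y η X hy hη
  refine ⟨xi_dep P h1, ?_⟩
  by_cases hP : P ∧ X.Nonempty
  · rw [if_pos hP]
    refine (Pr_mono (xi_W y hy) (fun w hw => hw.2)).trans (h2.trans ?_)
    rw [mul_assoc 2 (Real.exp _), ← Real.exp_add]
    refine mul_le_mul_of_nonneg_left (Real.exp_le_exp.2 ?_) (by norm_num)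
    have h3 : γ * (#X : ℝ) ≤ η ^ 2 * (#X : ℝ) := mul_le_mul_of_nonneg_right hγη (Nat.cast_nonneg _)
    linarith
  · rw [if_neg hP, zero_mul, Pr_false]
    rintro w ⟨hp, hlt⟩
    have hX : ¬ X.Nonempty := fun h => hP ⟨hp, h⟩
    rw [Finset.not_nonempty_iff_eq_empty] at hX
    subst hX
    simp [stay] at hlt

theorem xi_le {V : Type} (X : Finset V) (P : Prop) [Decidable P] (Z0 : ℕ) (η : ℝ) (h : P → Z0 ≤ #X) :
    0 ≤ (if P ∧ X.Nonempty then 2 * Real.exp (-(η ^ 2 * (#X : ℝ))) else 0) ∧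
    (if P ∧ X.Nonempty then 2 * Real.exp (-(η ^ 2 * (#X : ℝ))) else 0)
      ≤ 2 * Real.exp (-(η ^ 2 * (Z0 : ℝ))) := by
  split_ifs with hP
  · refine ⟨by positivity, mul_le_mul_of_nonneg_left (Real.exp_le_exp.2 ?_) (by norm_num)⟩
    have h1 : (Z0 : ℝ) ≤ (#X : ℝ) := Nat.cast_le.2 (h hP.1)
    have h2 : η ^ 2 * (Z0 : ℝ) ≤ η ^ 2 * (#X : ℝ) := mul_le_mul_of_nonneg_left h1 (sq_nonneg η)
    linarith
  · exact ⟨le_rfl, by positivity⟩

theorem xi_J {V J : Type} [DecidableEq V] [Fintype J] (S : J → Finset V)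
    (t : ℕ) (hD : Deg S t) (v : V) (c : ℝ) (hc : 0 ≤ c) (f : J → ℝ)
    (hf : ∀ j, 0 ≤ f j ∧ f j ≤ c) (G : Finset J) :
    (∑ j ∈ G, if v ∈ S j then f j else 0) ≤ t * c := by
  calc (∑ j ∈ G, if v ∈ S j then f j else 0)
      ≤ ∑ j : J, if v ∈ S j then f j else 0 := by
        refine Finset.sum_le_sum_of_subset_of_nonneg (Finset.subset_univ _) (fun j _ _ => ?_)
        split_ifs
        · exact (hf j).1
        · exact le_rfl
    _ = ∑ j ∈ univ.filter (fun j => v ∈ S j), f j := by rw [Finset.sum_filter]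
    _ ≤ ∑ _j ∈ univ.filter (fun j => v ∈ S j), c := Finset.sum_le_sum fun j _ => (hf j).2
    _ = (#(univ.filter (fun j => v ∈ S j)) : ℝ) * c := by rw [Finset.sum_const, nsmul_eq_mul]
    _ ≤ t * c := mul_le_mul_of_nonneg_right (Nat.cast_le.2 (hD v)) hc

theorem xi_JJ {V J : Type} [DecidableEq V] [Fintype J] (S : J → Finset V)
    (t : ℕ) (hD : Deg S t) (v : V) (c : ℝ) (hc : 0 ≤ c) (f : J × J → ℝ)
    (hf : ∀ j, 0 ≤ f j ∧ f j ≤ c) (G : Finset (J × J)) :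
    (∑ p ∈ G, if v ∈ S p.1 ∩ S p.2 then f p else 0) ≤ (t : ℝ) ^ 2 * c := by
  calc (∑ p ∈ G, if v ∈ S p.1 ∩ S p.2 then f p else 0)
      ≤ ∑ p : J × J, if v ∈ S p.1 ∩ S p.2 then f p else 0 := by
        refine Finset.sum_le_sum_of_subset_of_nonneg (Finset.subset_univ _) (fun j _ _ => ?_)
        split_ifs
        · exact (hf j).1
        · exact le_rfl
    _ ≤ ∑ p : J × J, if v ∈ S p.1 ∩ S p.2 then c else 0 := by
        refine Finset.sum_le_sum fun j _ => ?_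
        split_ifs
        · exact (hf j).2
        · exact le_rfl
    _ = ∑ i : J, ∑ j : J, (if v ∈ S i then (1 : ℝ) else 0) * (if v ∈ S j then 1 else 0) * c := by
        rw [Fintype.sum_prod_type]
        refine Finset.sum_congr rfl fun i _ => Finset.sum_congr rfl fun j _ => ?_
        by_cases h1 : v ∈ S i <;> by_cases h2 : v ∈ S j <;> simp [h1, h2]
    _ = (∑ i : J, if v ∈ S i then (1 : ℝ) else 0) * (∑ i : J, if v ∈ S i then (1 : ℝ) else 0) * c := by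
        rw [Finset.sum_mul_sum, Finset.sum_mul]
        refine Finset.sum_congr rfl fun i _ => ?_
        rw [Finset.sum_mul]
    _ ≤ (t : ℝ) ^ 2 * c := by
        have h1 : (∑ i : J, if v ∈ S i then (1 : ℝ) else 0) ≤ t := by
          rw [Finset.sum_boole]
          exact Nat.cast_le.2 (hD v)
        have h0 : 0 ≤ (∑ i : J, if v ∈ S i then (1 : ℝ) else 0) :=
          Finset.sum_nonneg fun i _ => by split_ifs <;> norm_num
        refine mul_le_mul_of_nonneg_right ?_ hc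
        rw [sq]
        exact mul_le_mul h1 h1 h0 (Nat.cast_nonneg _)

theorem xi_evt (hEVT : ST_EVT) {V : Type} [Fintype V] [DecidableEq V] (y : V → ℝ) (γ H : ℝ)
    (w w' : V → ℤ) (P : Prop) [Decidable P] (hy : ∀ x, |y x| ≤ 1 / 4) (hγ : 0 ≤ γ) (hH : 0 ≤ H) :
    Dep (Dst w w') (fun ξ => P ∧ BadE y γ H w w' ξ) ∧
    Pr (mw y) (fun ξ => P ∧ BadE y γ H w w' ξ)
      ≤ (if P ∧ (Dst w w').Nonempty then Real.exp (-H) else 0)
        * Real.exp (-(γ * (#(Dst w w') : ℝ))) := by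
  obtain ⟨h1, h2⟩ := hEVT V y γ H w w' hy hγ hH
  refine ⟨xi_dep P h1, ?_⟩
  by_cases hP : P ∧ (Dst w w').Nonempty
  · rw [if_pos hP]
    refine (Pr_mono (xi_W y hy) (fun w hw => hw.2)).trans (h2.trans ?_)
    rw [← Real.exp_add]
    refine Real.exp_le_exp.2 ?_
    linarith
  · rw [if_neg hP, zero_mul, Pr_false]
    rintro ξ ⟨hp, hlt⟩
    have hX : ¬ (Dst w w').Nonempty := fun h => hP ⟨hp, h⟩
    rw [Finset.not_nonempty_iff_eq_empty] at hX
    unfold BadE at hlt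
    rw [hX] at hlt
    simp at hlt

theorem xi_cost {V J : Type} (N : Net V) (κ : ℝ) (hκ : 0 ≤ κ) (p : FPol N.ι J) :
    0 ≤ fcost N.H κ p := by
  rcases p with (a | a) | (p | p)
  · exact N.nn a
  · exact N.nn a
  · exact cst_nn hκ p.2
  · exact cst_nn hκ p.2

theorem st_XI (hLLL : ST_LLL) (hEVT : ST_EVT) (hSHR : ST_SHR) (hFKR : ST_FKR)
    (hFLOC : ST_FLOC) : ST_XI := by
  intro V J _ _ _ _ N S Z t Z0 K κ β ζ Ag γ η y hy hDeg hK hβ hβK hζ hκ hKr h1 h2 hγ hγ1 hγη hη h3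
  have hW : IsW (mw y) := xi_W y hy
  have hcost : ∀ Q : Finset (FPol N.ι J), 0 ≤ ∑ p ∈ Q, fcost N.H κ p := fun Q =>
    Finset.sum_nonneg fun p _ => xi_cost N κ hκ p
  -- Kraft sums of the clusters
  have hcl : ∀ (v : V) (G : Finset (Finset (FPol N.ι J))),
      (∑ Q ∈ G, if v ∈ Dst (fw1 N.φ S Z Ag Q) (fw2 N.φ S Z Ag Q) then
        (if Conn (FRel N.φ S Z) Q ∧ (Dst (fw1 N.φ S Z Ag Q) (fw2 N.φ S Z Ag Q)).Nonempty then
          Real.exp (-(∑ p ∈ Q, fcost N.H κ p)) else 0) else 0) ≤ γ / 4 := by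
    intro v G
    refine le_trans ?_ ((hFKR V J N S Z t K κ β ζ hDeg hK hβ hβK hζ hκ hKr h1 v G).trans h2)
    rw [Finset.sum_filter]
    refine Finset.sum_le_sum fun Q _ => ?_
    by_cases hv : v ∈ Dst (fw1 N.φ S Z Ag Q) (fw2 N.φ S Z Ag Q)
    · rw [if_pos hv]
      by_cases hc : Conn (FRel N.φ S Z) Q
      · have hex : ∃ p ∈ Q, v ∈ fsup N.φ S Z p := by
          refine (hFLOC V J N.ι N.φ S Z Ag).1 Q v ?_
          unfold Dst at hv
          exact (Finset.mem_filter.1 hv).2.1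
        rw [if_pos ⟨hc, ⟨v, hv⟩⟩, if_pos ⟨hc, hex⟩]
      · rw [if_neg (fun h => hc h.1)]
        split_ifs <;> positivity
    · rw [if_neg hv]
      split_ifs <;> positivity
  have hkr : ∀ (v : V) (F : Finset (Finset (FPol N.ι J) ⊕ (J ⊕ (J × J)))),
      ∑ i ∈ F.filter (fun i => v ∈ Sum.elim
          (fun Q => Dst (fw1 N.φ S Z Ag Q) (fw2 N.φ S Z Ag Q))
          (Sum.elim S (fun p : J × J => S p.1 ∩ S p.2)) i),
        Sum.elim (fun Q => if Conn (FRel N.φ S Z) Q ∧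
            (Dst (fw1 N.φ S Z Ag Q) (fw2 N.φ S Z Ag Q)).Nonempty then
            Real.exp (-(∑ p ∈ Q, fcost N.H κ p)) else 0)
          (Sum.elim (fun j => if (Z0 ≤ #(S j)) ∧ (S j).Nonempty then
              2 * Real.exp (-(η ^ 2 * (#(S j) : ℝ))) else 0)
            (fun p : J × J => if (p.1 ≠ p.2 ∧ Z0 ≤ #(S p.1 ∩ S p.2)) ∧ (S p.1 ∩ S p.2).Nonempty
              then 2 * Real.exp (-(η ^ 2 * (#(S p.1 ∩ S p.2) : ℝ))) else 0)) i ≤ γ / 2 := by
    intro v F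
    rw [Finset.sum_filter, ← F.toLeft_disjSum_toRight, Finset.sum_disjSum,
      ← F.toRight.toLeft_disjSum_toRight, Finset.sum_disjSum]
    simp only [Sum.elim_inl, Sum.elim_inr]
    have a1 := hcl v F.toLeft
    have a2 := xi_J S t hDeg v (2 * Real.exp (-(η ^ 2 * (Z0 : ℝ)))) (by positivity)
      (fun j => if (Z0 ≤ #(S j)) ∧ (S j).Nonempty then
              2 * Real.exp (-(η ^ 2 * (#(S j) : ℝ))) else 0)
      (fun j => xi_le (S j) _ Z0 η (fun h => h)) F.toRight.toLeft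
    have a3 := xi_JJ S t hDeg v (2 * Real.exp (-(η ^ 2 * (Z0 : ℝ)))) (by positivity)
      (fun p : J × J => if (p.1 ≠ p.2 ∧ Z0 ≤ #(S p.1 ∩ S p.2)) ∧ (S p.1 ∩ S p.2).Nonempty
              then 2 * Real.exp (-(η ^ 2 * (#(S p.1 ∩ S p.2) : ℝ))) else 0)
      (fun p => xi_le (S p.1 ∩ S p.2) _ Z0 η (fun h => h.2)) F.toRight.toRight
    have a4 : (t : ℝ) * (2 * Real.exp (-(η ^ 2 * (Z0 : ℝ)))) +
        (t : ℝ) ^ 2 * (2 * Real.exp (-(η ^ 2 * (Z0 : ℝ)))) ≤ γ / 4 := by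
      refine le_trans (le_of_eq ?_) h3
      ring
    linarith
  have hhalf : ∀ i : Finset (FPol N.ι J) ⊕ (J ⊕ (J × J)),
      Sum.elim (fun Q => if Conn (FRel N.φ S Z) Q ∧
            (Dst (fw1 N.φ S Z Ag Q) (fw2 N.φ S Z Ag Q)).Nonempty then
            Real.exp (-(∑ p ∈ Q, fcost N.H κ p)) else 0)
          (Sum.elim (fun j => if (Z0 ≤ #(S j)) ∧ (S j).Nonempty then
              2 * Real.exp (-(η ^ 2 * (#(S j) : ℝ))) else 0)
            (fun p : J × J => if (p.1 ≠ p.2 ∧ Z0 ≤ #(S p.1 ∩ S p.2)) ∧ (S p.1 ∩ S p.2).Nonempty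
              then 2 * Real.exp (-(η ^ 2 * (#(S p.1 ∩ S p.2) : ℝ))) else 0)) i ≤ 1 / 2 := by
    intro i
    have key : ∀ v, v ∈ Sum.elim
          (fun Q => Dst (fw1 N.φ S Z Ag Q) (fw2 N.φ S Z Ag Q))
          (Sum.elim S (fun p : J × J => S p.1 ∩ S p.2)) i →
        Sum.elim (fun Q => if Conn (FRel N.φ S Z) Q ∧
            (Dst (fw1 N.φ S Z Ag Q) (fw2 N.φ S Z Ag Q)).Nonempty then
            Real.exp (-(∑ p ∈ Q, fcost N.H κ p)) else 0)
          (Sum.elim (fun j => if (Z0 ≤ #(S j)) ∧ (S j).Nonempty then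
              2 * Real.exp (-(η ^ 2 * (#(S j) : ℝ))) else 0)
            (fun p : J × J => if (p.1 ≠ p.2 ∧ Z0 ≤ #(S p.1 ∩ S p.2)) ∧ (S p.1 ∩ S p.2).Nonempty
              then 2 * Real.exp (-(η ^ 2 * (#(S p.1 ∩ S p.2) : ℝ))) else 0)) i ≤ 1 / 2 := by
      intro v hv
      have h := hkr v {i}
      rw [Finset.filter_singleton, if_pos hv, Finset.sum_singleton] at h
      linarith
    rcases i with Q | j | p
    · simp only [Sum.elim_inl] at key ⊢
      by_cases hc : Conn (FRel N.φ S Z) Q ∧ (Dst (fw1 N.φ S Z Ag Q) (fw2 N.φ S Z Ag Q)).Nonempty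
      · obtain ⟨v, hv⟩ := hc.2
        exact key v hv
      · rw [if_neg hc]
        norm_num
    · simp only [Sum.elim_inl, Sum.elim_inr] at key ⊢
      by_cases hc : (Z0 ≤ #(S j)) ∧ (S j).Nonempty
      · obtain ⟨v, hv⟩ := hc.2
        exact key v hv
      · rw [if_neg hc]
        norm_num
    · simp only [Sum.elim_inr] at key ⊢
      by_cases hc : (p.1 ≠ p.2 ∧ Z0 ≤ #(S p.1 ∩ S p.2)) ∧ (S p.1 ∩ S p.2).Nonempty
      · obtain ⟨v, hv⟩ := hc.2
        exact key v hv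
      · rw [if_neg hc]
        norm_num
  have hex : ∃ ξ : V → SignType, ∀ i, ¬ (Sum.elim (fun Q ξ => Conn (FRel N.φ S Z) Q ∧
        BadE y γ (∑ p ∈ Q, fcost N.H κ p) (fw1 N.φ S Z Ag Q) (fw2 N.φ S Z Ag Q) ξ)
      (Sum.elim (fun j ξ => (Z0 ≤ #(S j)) ∧
          η * (#(S j) : ℝ) < |(#(stay ξ (S j)) : ℝ) - (#(S j) : ℝ) / 2|)
        (fun (p : J × J) ξ => (p.1 ≠ p.2 ∧ Z0 ≤ #(S p.1 ∩ S p.2)) ∧ η * (#(S p.1 ∩ S p.2) : ℝ)
          < |(#(stay ξ (S p.1 ∩ S p.2)) : ℝ) - (#(S p.1 ∩ S p.2) : ℝ) / 2|)) :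
      Finset (FPol N.ι J) ⊕ (J ⊕ (J × J)) → (V → SignType) → Prop) i ξ := by
    refine hLLL V SignType (mw y) hW (Finset (FPol N.ι J) ⊕ (J ⊕ (J × J)))
      (Sum.elim (fun Q => Dst (fw1 N.φ S Z Ag Q) (fw2 N.φ S Z Ag Q))
        (Sum.elim S (fun p : J × J => S p.1 ∩ S p.2))) _ _ γ ?_ ?_ hhalf hγ.le ?_ hkr
    · rintro (Q | j | p)
      · exact (xi_evt hEVT y γ _ _ _ _ hy hγ.le (hcost Q)).1
      · exact (xi_shr hSHR y η γ (S j) _ hy hη hγη).1
      · exact (xi_shr hSHR y η γ (S p.1 ∩ S p.2) _ hy hη hγη).1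
    · rintro (Q | j | p)
      · simp only [Sum.elim_inl]
        split_ifs <;> positivity
      · exact (xi_le (S j) _ Z0 η (fun h => h)).1
      · exact (xi_le (S p.1 ∩ S p.2) _ Z0 η (fun h => h.2)).1
    · rintro (Q | j | p)
      · exact (xi_evt hEVT y γ _ _ _ _ hy hγ.le (hcost Q)).2
      · exact (xi_shr hSHR y η γ (S j) _ hy hη hγη).2
      · exact (xi_shr hSHR y η γ (S p.1 ∩ S p.2) _ hy hη hγη).2
  obtain ⟨ξ, hξ⟩ := hex
  refine ⟨ξ, ?_, ?_, ?_⟩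
  · intro Q hQ hB
    exact hξ (Sum.inl Q) ⟨hQ, hB⟩
  · intro j hj
    by_contra hc
    exact hξ (Sum.inr (Sum.inl j)) ⟨hj, not_le.1 hc⟩
  · intro i j hij hZ
    by_contra hc
    exact hξ (Sum.inr (Sum.inr (i, j))) ⟨⟨hij, hZ⟩, not_le.1 hc⟩

end

end Pool.Agent.Helper50.BL
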